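import Mathlib

set_option autoImplicit false

namespace Pool.Agent.H.MP_4d4d44_lc

open Set Filter Topology Function TopologicalSpace MeasureTheory

theorem fub {X Y : Type} [MeasurableSpace X] [MeasurableSpace Y] (μ : Measure X) (ν : Measure Y)
    [SFinite μ] [SFinite ν] {A : Set X} {B : Set Y} {p : X → Y → Prop}
    (hp : Measurable fun z : X × Y => p z.1 z.2) (h1 : ∀ x ∈ A, ν ({y | p x y} ∩ B) = 0)
    (h2 : ∀ y ∈ B, μ ({x | ¬ p x y} ∩ A) = 0) (h : ν B ≠ 0) : μ A = 0 := by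
  have h3 : ∀ᵐ x ∂μ.restrict A, ∀ᵐ y ∂ν.restrict B, ¬ p x y := by
    simp only [ae_iff (μ := ν.restrict B), not_not]
    refine (ae_restrict_iff (measurable_measure_prodMk_left (ν := ν.restrict B) hp.setOf
      (measurableSet_singleton 0))).2 (ae_of_all _ fun x hx => ?_)
    exact (Measure.restrict_apply (hp.comp measurable_prodMk_left).setOf).trans (h1 x hx)
  obtain ⟨y, y1, y2⟩ := Measure.exists_mem_of_measure_ne_zero_of_ae h
    ((Measure.ae_ae_comm hp.not.setOf).1 h3)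
  replace y2 := (Measure.restrict_apply (hp.comp measurable_prodMk_right).not.not.setOf).symm.trans
    (ae_iff.1 y2)
  exact measure_mono_null (fun x hx => by by_cases h : p x y <;> simp [h, hx])
    (measure_union_null y2 (h2 y y1))

theorem wo {X ι : Type} [MeasurableSpace X] (μ : Measure X) [SFinite μ] [LinearOrder ι]
    [WellFoundedLT ι] (A : ι → Set X) (hA : ∀ i, μ (A i) = 0) {p : X → X → Prop}
    (hp : Measurable fun z : X × X => p z.1 z.2)
    (h : ∀ i j, i < j → ∀ x ∈ A i, ∀ y ∈ A j, p y x ∧ ¬ p x y) : μ (⋃ i, A i) = 0 := by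
  have h1 : ∀ S : Set ι, (∀ i ∈ S, μ (⋃ j < i, A j) = 0) → μ (⋃ i ∈ S, A i) = 0 := fun S hS => by
    by_contra h'
    refine h' (fub μ μ hp (fun x hx => ?_) (fun x hx => ?_) h') <;>
    obtain ⟨i, hi, hx⟩ := mem_iUnion₂.1 hx <;>
    refine measure_mono_null (fun y ⟨y1, y2⟩ => ?_) (measure_union_null (hA i) (hS i hi)) <;>
    obtain ⟨j, -, hy⟩ := mem_iUnion₂.1 y2 <;>
    rcases lt_trichotomy j i with e | rfl | e
    exacts [Or.inr (mem_iUnion₂.2 ⟨j, e, hy⟩), Or.inl hy, ((h i j e x hx y hy).2 y1).elim,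
      Or.inr (mem_iUnion₂.2 ⟨j, e, hy⟩), Or.inl hy, (y1 (h i j e x hx y hy).1).elim]
  simpa using h1 univ fun i _ => wellFounded_lt.induction (C := fun i => μ (⋃ j < i, A j) = 0) i
    fun i ih => h1 (Iio i) ih

def T := ℕ → ℕ

theorem scale : ∃ (ι : Type) (_ : LinearOrder ι) (_ : WellFoundedLT ι) (b : ι → ℕ → ℕ),
    (∀ i, Monotone (b i)) ∧ (∀ i j, i < j → ∀ᶠ n in atTop, b i n < b j n) ∧
    ∀ g : ℕ → ℕ → ℕ, ∃ i, ∀ k, ∃ n, g k n < b i n := by
  obtain ⟨_, _⟩ := exists_wellFoundedLT T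
  let B : T → Prop := wellFounded_lt.fix fun (f : T) ih => Monotone (show ℕ → ℕ from f) ∧
    ∀ g (h : g < f), ih g h → ∀ᶠ n in atTop, g n < f n
  have hB : ∀ f, B f ↔ Monotone (show ℕ → ℕ from f) ∧ ∀ g < f, B g → ∀ᶠ n in atTop, g n < f n :=
    fun f => (wellFounded_lt.fix_eq _ f).to_iff
  refine ⟨{f // B f}, inferInstance, inferInstance, fun i => i.1, fun i => ((hB _).1 i.2).1,
    fun i j h => ((hB _).1 j.2).2 _ h i.2, fun g => ?_⟩
  by_contra h
  push Not at h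
  let f : ℕ → ℕ := fun n => ∑ k ≤ n, ∑ m ≤ n, g k m + 1
  have hf : ∀ i : {f // B f}, ∀ᶠ n in atTop, i.1 n < f n := fun i => by
    obtain ⟨k, hk⟩ := h i
    exact (eventually_ge_atTop k).mono fun n hn => Nat.lt_succ_of_le ((hk n).trans
      ((Finset.single_le_sum (f := g k) (by simp) (Finset.mem_Iic.2 le_rfl)).trans
        (Finset.single_le_sum (f := fun k => ∑ m ≤ n, g k m) (by simp) (Finset.mem_Iic.2 hn))))
  exact (hf ⟨f, (hB f).2 ⟨fun a b hab => Nat.succ_le_succ ((Finset.sum_le_sum fun _ _ =>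
    Finset.sum_le_sum_of_subset (Finset.Iic_subset_Iic.2 hab)).trans (Finset.sum_le_sum_of_subset
      (Finset.Iic_subset_Iic.2 hab))), fun g _ h => hf ⟨g, h⟩⟩⟩).exists.elim
    fun _ => lt_irrefl _

theorem code {Y : Type} [MeasurableSpace Y] [TopologicalSpace Y] (ν : Measure Y)
    [ν.OuterRegular] {V : ℕ → Set Y} (hV : IsTopologicalBasis (range V)) {T : Set Y}
    (h : ν T = 0) : ∃ c : ℕ → ℕ, T ⊆ {y | ∀ n, ∃ m, c (Nat.pair n m) = 1 ∧ y ∈ V m} ∧
      ν {y | ∀ n, ∃ m, c (Nat.pair n m) = 1 ∧ y ∈ V m} = 0 := by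
  classical
  choose U u1 u2 u3 using fun n : ℕ => T.exists_isOpen_lt_of_lt (μ := ν) (n : ENNReal)⁻¹
    (by simp [h])
  refine ⟨fun k => if V k.unpair.2 ⊆ U k.unpair.1 then 1 else 0, fun y hy n => ?_, ?_⟩
  · obtain ⟨_, ⟨m, rfl⟩, h1, h2⟩ := hV.exists_subset_of_mem_open (u1 n hy) (u2 n)
    exact ⟨m, by simp [h2], h1⟩
  · by_contra h'
    obtain ⟨n, hn⟩ := ENNReal.exists_inv_nat_lt h'
    refine ((u3 n).trans hn).not_ge (measure_mono fun y hy => ?_)
    obtain ⟨m, h1, h2⟩ := hy n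
    simp only [Nat.unpair_pair, ite_eq_left_iff, zero_ne_one, imp_false, not_not] at h1
    exact h1 h2

end Pool.Agent.H.MP_4d4d44_lc
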